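import Pool.Agent.TH84.HC.Key

/-!
# The lower bound at the first doubled level, all thresholds
-/

set_option autoImplicit false

open MeasureTheory ProbabilityTheory
open scoped RealInnerProductSpace ENNReal

namespace Pool.Agent.R972.CM

open Pool.Agent.PZ871 (E gm)
open Pool.Agent.TH84.HC

theorem Ph_pos (u : ℝ) : 0 < Ph u := by
  unfold Ph
  rw [Measure.real, ENNReal.toReal_pos_iff]
  refine ⟨?_, measure_lt_top _ _⟩
  rw [pos_iff_ne_zero]
  intro h
  have h2 := gaussianReal_absolutelyContinuous' 0 one_ne_zero h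
  rw [Real.volume_Iio] at h2
  norm_num at h2

theorem bu_pos' (u : ℝ) : 0 < bu u := div_pos (ph_pos u) (Ph_pos u)

theorem su_nonneg' (u : ℝ) : 0 ≤ su u := by
  have h1 : ∫ x in Set.Iio u, x ∂g1 ≤ ∫ _ in Set.Iio u, u ∂g1 := by
    refine setIntegral_mono_on id_int.integrableOn (integrable_const u).integrableOn
      measurableSet_Iio ?_
    intro x hx
    exact le_of_lt hx
  rw [mean_u] at h1
  have h2 : ∫ _ in Set.Iio u, u ∂g1 = u * Ph u := by
    have := mass_u u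
    have e : ∫ _ in Set.Iio u, u ∂g1 = u * ∫ _ in Set.Iio u, (1:ℝ) ∂g1 := by
      rw [← integral_const_mul]
      simp
    rw [e, this]
  rw [h2] at h1
  unfold su bu
  have hP := Ph_pos u
  have : (u + ph u / Ph u) = (u * Ph u + ph u) / Ph u := by
    field_simp
  rw [this]
  apply div_nonneg _ hP.le
  linarith

theorem qu_pos' (u : ℝ) : 0 < qu u := mul_pos (Ph_pos u) (Real.exp_pos _)

theorem base' (u : ℝ) : Mo (mu (su u) (bu u) 0) (qu u) := by
  have e0 : su u - bu u = u := by unfold su; ring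
  rw [mu_zero, e0]
  have hsu := su_nonneg' u
  have hsu' : 0 ≤ u + bu u := hsu
  set b : ℝ := bu u with hb
  have hPp : 0 < Ph u := Ph_pos u
  have hbP : b * Ph u = ph u := by rw [hb]; unfold bu; field_simp
  set ν : Measure ℝ := (g1.restrict (Set.Iio u)).map (fun x => x + b) with hν
  have hm : Measurable (fun x : ℝ => x + b) := by fun_prop
  have I0 : IntegrableOn (fun _ : ℝ => (1:ℝ)) (Set.Iio u) g1 := (integrable_const 1).integrableOn
  have I1 : IntegrableOn (fun x : ℝ => x) (Set.Iio u) g1 := id_int.integrableOn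
  have I2 : IntegrableOn (fun x : ℝ => x ^ 2) (Set.Iio u) g1 := sq_int.integrableOn
  have hmass : g1 (Set.Iio u) = ENNReal.ofReal (Ph u) := by
    unfold Ph
    rw [Measure.real, ENNReal.ofReal_toReal (measure_ne_top _ _)]
  have hexp : (0:ℝ) ≤ Real.exp (b ^ 2 / 2) := (Real.exp_pos _).le
  have i2 : Integrable (fun a : ℝ => a ^ 2) ν := by
    rw [hν, integrable_map_measure (by fun_prop) hm.aemeasurable]
    have e : ((fun a : ℝ => a ^ 2) ∘ fun x : ℝ => x + b) =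
        fun x : ℝ => x ^ 2 + (2 * b) * x + b ^ 2 * 1 := by
      funext x
      simp only [Function.comp_apply]
      ring
    rw [e]
    exact (I2.add (I1.const_mul _)).add (I0.const_mul _)
  refine ⟨?_, (qu_pos' u).le, ?_, ?_, ?_⟩
  · rw [Measure.smul_apply, hν, Measure.map_apply hm MeasurableSet.univ, Set.preimage_univ,
      Measure.restrict_apply MeasurableSet.univ, Set.univ_inter, hmass, smul_eq_mul,
      ← ENNReal.ofReal_mul hexp]
    unfold qu
    congr 1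
    ring
  · exact i2.smul_measure ENNReal.ofReal_ne_top
  · rw [integral_smul_measure, hν, integral_map hm.aemeasurable (by fun_prop)]
    have e : (fun x : ℝ => x + b) = fun x : ℝ => x + b * 1 := by funext x; ring
    rw [e, integral_add I1 (I0.const_mul _), integral_const_mul, mean_u, mass_u, hbP]
    simp
  · rw [integral_smul_measure, hν, integral_map hm.aemeasurable (by fun_prop),
      ENNReal.toReal_ofReal hexp]
    have e : (fun x : ℝ => (x + b) ^ 2) = fun x : ℝ => x ^ 2 + (2 * b) * x + b ^ 2 * 1 := by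
      funext x; ring
    have J : IntegrableOn (fun x : ℝ => x ^ 2 + (2 * b) * x) (Set.Iio u) g1 :=
      I2.add (I1.const_mul _)
    rw [e, integral_add J (I0.const_mul _), integral_add I2 (I1.const_mul _),
      integral_const_mul, integral_const_mul, sq_u, mean_u, mass_u, smul_eq_mul]
    unfold qu
    rw [← hb, mul_comm (Ph u)]
    refine mul_le_mul_of_nonneg_left ?_ hexp
    have h1 : b ^ 2 * Ph u = b * ph u := by rw [← hbP]; ring
    rw [h1]
    have h2 := ph_pos u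
    nlinarith [mul_nonneg hsu' h2.le]

theorem mo_k' (u : ℝ) (k : ℕ) : Mo (mu (su u) (bu u) k) (qu u ^ 2 ^ k) :=
  mo_all (base' u) k

/-- the lower bound for the doubled indicators -/
theorem hk_low' (u : ℝ) (k : ℕ) :
    ENNReal.ofReal (3/4 * qu u ^ 2 ^ k * Real.exp (-(2 * (bu u * Real.sqrt 2 ^ k))))
    ≤ hk (su u) k (-2) := by
  have M := mo_k' u k
  set Q : ℝ := qu u ^ 2 ^ k with hQ
  set b : ℝ := bu u * Real.sqrt 2 ^ k with hb
  have hb0 : 0 < b := mul_pos (bu_pos' u) (pow_pos sqrt2_pos _)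
  have hfin : IsFiniteMeasure (mu (su u) (bu u) k) :=
    ⟨by rw [M.mass]; exact ENNReal.ofReal_lt_top⟩
  have hreal : (mu (su u) (bu u) k).real Set.univ = Q := by
    rw [Measure.real, M.mass, ENNReal.toReal_ofReal M.pos]
  -- Chebyshev
  have h1 : 4 * (mu (su u) (bu u) k).real {a : ℝ | 4 ≤ a ^ 2} ≤ Q :=
    le_trans (mul_meas_ge_le_integral_of_nonneg
      (Filter.Eventually.of_forall fun a : ℝ => sq_nonneg a) M.int 4) M.var
  have hms : MeasurableSet {a : ℝ | 4 ≤ a ^ 2} := measurableSet_le (by fun_prop) (by fun_prop)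
  have h2 : 3/4 * Q ≤ (mu (su u) (bu u) k).real {a : ℝ | 4 ≤ a ^ 2}ᶜ := by
    have := measureReal_compl (μ := mu (su u) (bu u) k) hms
    rw [this, hreal]
    linarith
  have h3 : (mu (su u) (bu u) k) {a : ℝ | 4 ≤ a ^ 2}ᶜ ≤
      ENNReal.ofReal (Real.exp (2 * b)) * hk (su u) k (-2) := by
    have e := lint_mu (su u) (bu u) k (({a : ℝ | 4 ≤ a ^ 2}ᶜ).indicator 1)
      (measurable_one.indicator hms.compl)
    rw [lintegral_indicator_one hms.compl] at e
    rw [e]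
    calc ∫⁻ a, hk (su u) k a * ENNReal.ofReal (Real.exp (bu u * Real.sqrt 2 ^ k * a)) *
          ({a : ℝ | 4 ≤ a ^ 2}ᶜ).indicator 1 a ∂g1
        ≤ ∫⁻ _, ENNReal.ofReal (Real.exp (2 * b)) * hk (su u) k (-2) ∂g1 := by
          refine lintegral_mono fun a => ?_
          by_cases ha : a ∈ {a : ℝ | 4 ≤ a ^ 2}ᶜ
          · rw [Set.indicator_of_mem ha, Pi.one_apply, mul_one, mul_comm]
            have ha' : a ^ 2 < 4 := not_le.1 ha
            have h4 : -2 ≤ a := by nlinarith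
            have h5 : a ≤ 2 := by nlinarith
            refine mul_le_mul' (ENNReal.ofReal_le_ofReal (Real.exp_le_exp.2 ?_))
              (hk_anti (su u) k h4)
            nlinarith
          · rw [Set.indicator_of_notMem ha, mul_zero]
            exact zero_le
      _ = ENNReal.ofReal (Real.exp (2 * b)) * hk (su u) k (-2) := by simp
  have h4 : ENNReal.ofReal (3/4 * Q) ≤ ENNReal.ofReal (Real.exp (2 * b)) * hk (su u) k (-2) := by
    refine le_trans ?_ h3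
    rw [← ENNReal.ofReal_toReal (measure_ne_top (mu (su u) (bu u) k) {a : ℝ | 4 ≤ a ^ 2}ᶜ)]
    exact ENNReal.ofReal_le_ofReal h2
  have hQ0 : 0 ≤ Q := M.pos
  calc ENNReal.ofReal (3/4 * Q * Real.exp (-(2 * b)))
      = ENNReal.ofReal (3/4 * Q) * ENNReal.ofReal (Real.exp (-(2 * b))) :=
        ENNReal.ofReal_mul (by positivity)
    _ ≤ ENNReal.ofReal (Real.exp (2 * b)) * hk (su u) k (-2) *
          ENNReal.ofReal (Real.exp (-(2 * b))) := mul_le_mul' h4 le_rfl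
    _ = (ENNReal.ofReal (Real.exp (2 * b)) * ENNReal.ofReal (Real.exp (-(2 * b)))) *
          hk (su u) k (-2) := by ring
    _ = hk (su u) k (-2) := by
        rw [← ENNReal.ofReal_mul (Real.exp_pos _).le, ← Real.exp_add]
        simp

theorem J_iter1 {n : ℕ} {ι : Type} [Fintype ι] (φ : ι → E n) (hφ : ∀ i, ‖φ i‖ = 1) (s : ℝ) (k : ℕ)
    (v : E n) : JJ φ s (k + 1) (Real.sqrt 2 ^ (k + 1) • v) ≤
      (JJ φ s 1 (Real.sqrt 2 • v)) ^ 2 ^ k := by
  induction k with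
  | zero => simp
  | succ k ih =>
    have h := J_step φ hφ s (k + 1) (Real.sqrt 2 ^ (k + 1) • v)
    rw [smul_smul, ← pow_succ'] at h
    calc JJ φ s (k + 1 + 1) (Real.sqrt 2 ^ (k + 1 + 1) • v)
        ≤ (JJ φ s (k + 1) (Real.sqrt 2 ^ (k + 1) • v)) ^ 2 := h
      _ ≤ ((JJ φ s 1 (Real.sqrt 2 • v)) ^ 2 ^ k) ^ 2 := pow_le_pow_left' ih 2
      _ = _ := by rw [← pow_mul, ← pow_succ]

/-- Cameron-Martin shift at the first doubled level -/
theorem shift1 {n : ℕ} {ι : Type} [Fintype ι] (φ : ι → E n) (x : E n)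
    (hx : ∀ i, ⟪x, φ i⟫ = 1) (c τ : ℝ) :
    JJ φ c 1 0 = ENNReal.ofReal (Real.exp (-(τ ^ 2 * ‖x‖ ^ 2))) *
      JJ φ (c + τ) 1 (Real.sqrt 2 • (τ • x)) := by
  have h := cm_lint n (Real.sqrt 2 • (τ • x)) (fun y => ∏ i, hk (c + τ) 1 ⟪y, φ i⟫)
    (prod_meas φ (c + τ) 1)
  have h0 : JJ φ c 1 0 = ∫⁻ g, ∏ i, hk (c + τ) 1 ⟪g + Real.sqrt 2 • (τ • x), φ i⟫ ∂(gm n) := by
    unfold JJ
    refine lintegral_congr fun g => ?_
    rw [inner_zero_left, Real.exp_zero, ENNReal.ofReal_one, mul_one]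
    refine Finset.prod_congr rfl fun i _ => ?_
    rw [hk_shift c τ 1, inner_add_left, inner_smul_left, inner_smul_left, hx i]
    congr 1
    simp only [conj_trivial]
    ring
  rw [h0, h]
  unfold JJ
  have hm : Measurable (fun y : E n =>
      (∏ i, hk (c + τ) 1 ⟪y, φ i⟫) * ENNReal.ofReal (Real.exp ⟪Real.sqrt 2 • (τ • x), y⟫)) :=
    (prod_meas φ (c + τ) 1).mul (by fun_prop)
  rw [← lintegral_const_mul _ hm]
  refine lintegral_congr fun g => ?_
  have e : ENNReal.ofReal (Real.exp (⟪Real.sqrt 2 • (τ • x), g⟫ - ‖Real.sqrt 2 • (τ • x)‖^2/2)) =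
      ENNReal.ofReal (Real.exp (-(τ ^ 2 * ‖x‖ ^ 2))) *
        ENNReal.ofReal (Real.exp ⟪Real.sqrt 2 • (τ • x), g⟫) := by
    rw [← ENNReal.ofReal_mul (Real.exp_pos _).le, ← Real.exp_add, norm_smul, norm_smul, mul_pow,
      mul_pow, Real.norm_eq_abs, sq_abs, Real.norm_eq_abs, sq_abs, Real.sq_sqrt (by norm_num)]
    congr 2
    ring
  rw [e]
  ring

theorem JJ_le1 {n : ℕ} {ι : Type} [Fintype ι] (φ : ι → E n) (s : ℝ) (k : ℕ) :
    JJ φ s k 0 ≤ 1 := by
  unfold JJ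
  calc ∫⁻ y, (∏ i, hk s k ⟪y, φ i⟫) * ENNReal.ofReal (Real.exp ⟪(0 : E n), y⟫) ∂(gm n)
      ≤ ∫⁻ _, 1 ∂(gm n) := by
        refine lintegral_mono fun y => ?_
        rw [inner_zero_left, Real.exp_zero, ENNReal.ofReal_one, mul_one]
        exact Finset.prod_le_one' fun i _ => hk_le1 _ _ _
    _ = 1 := by simp

/-- the inequality at level `k + 1` -/
theorem key_k1 {n : ℕ} {ι : Type} [Fintype ι] (c : ℝ) (φ : ι → E n)
    (hφ : ∀ i, ‖φ i‖ = 1) (x : E n) (hx : ∀ i, ⟪x, φ i⟫ = 1) (k : ℕ) :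
    Real.exp (-((bu c + 3 / Real.sqrt 2 ^ (k + 1)) ^ 2 * ‖x‖ ^ 2)) ^ 2 ^ k *
      (3/4 * qu c ^ 2 ^ (k + 1) * Real.exp (-(2 * (bu c * Real.sqrt 2 ^ (k + 1)))) * p1) ^
        Fintype.card ι ≤
      ((JJ φ c 1 0).toReal) ^ 2 ^ k := by
  set τ : ℝ := bu c + 3 / Real.sqrt 2 ^ (k + 1) with hτ
  have hs : c + τ = su c + 3 / Real.sqrt 2 ^ (k + 1) := by rw [hτ]; unfold su; ring
  have h1 := shift1 φ x hx c τ
  have h2 := J_iter1 φ hφ (c + τ) k (τ • x)
  have h3 := J_low φ hφ (c + τ) (k + 1) (Real.sqrt 2 ^ (k + 1) • τ • x)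
  have h4 : hk (c + τ) (k + 1) 1 = hk (su c) (k + 1) (-2) := by
    rw [hs, hk_shift]
    congr 1
    have : Real.sqrt 2 ^ (k + 1) ≠ 0 := (pow_pos sqrt2_pos _).ne'
    field_simp
    norm_num
  rw [h4] at h3
  have h5 := hk_low' c (k + 1)
  have q0 : 0 < qu c := qu_pos' c
  have p0 : 0 < p1 := p1_pos
  have h6 : ENNReal.ofReal ((3/4 * qu c ^ 2 ^ (k + 1) *
      Real.exp (-(2 * (bu c * Real.sqrt 2 ^ (k + 1)))) *
      p1) ^ Fintype.card ι) ≤ (JJ φ (c + τ) 1 (Real.sqrt 2 • (τ • x))) ^ 2 ^ k := by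
    rw [ENNReal.ofReal_pow (by positivity), ENNReal.ofReal_mul (by positivity)]
    exact ((pow_le_pow_left' (mul_le_mul' h5 le_rfl) _).trans h3).trans h2
  have hfin : JJ φ c 1 0 ≠ ⊤ := ne_top_of_le_ne_top ENNReal.one_ne_top (JJ_le1 φ c 1)
  have h7 : ENNReal.ofReal (Real.exp (-(τ ^ 2 * ‖x‖ ^ 2)) ^ 2 ^ k *
      (3/4 * qu c ^ 2 ^ (k + 1) * Real.exp (-(2 * (bu c * Real.sqrt 2 ^ (k + 1)))) * p1) ^
        Fintype.card ι) ≤ (JJ φ c 1 0) ^ 2 ^ k := by
    rw [ENNReal.ofReal_mul (by positivity), ENNReal.ofReal_pow (by positivity)]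
    calc _ ≤ ENNReal.ofReal (Real.exp (-(τ ^ 2 * ‖x‖ ^ 2))) ^ 2 ^ k *
          (JJ φ (c + τ) 1 (Real.sqrt 2 • (τ • x))) ^ 2 ^ k := mul_le_mul' le_rfl h6
      _ = (ENNReal.ofReal (Real.exp (-(τ ^ 2 * ‖x‖ ^ 2))) *
            JJ φ (c + τ) 1 (Real.sqrt 2 • (τ • x))) ^ 2 ^ k := (mul_pow _ _ _).symm
      _ = _ := by rw [h1]
  have h8 : (JJ φ c 1 0) ^ 2 ^ k = ENNReal.ofReal (((JJ φ c 1 0).toReal) ^ 2 ^ k) := by
    rw [ENNReal.ofReal_pow ENNReal.toReal_nonneg, ENNReal.ofReal_toReal hfin]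
  rw [h8] at h7
  exact (ENNReal.ofReal_le_ofReal_iff (pow_nonneg ENNReal.toReal_nonneg _)).1 h7

/-- the lower bound at the first doubled level -/
theorem low1 {n : ℕ} {ι : Type} [Fintype ι] (c : ℝ) (φ : ι → E n)
    (hφ : ∀ i, ‖φ i‖ = 1) (x : E n) (hx : ∀ i, ⟪x, φ i⟫ = 1)
    (hn : ‖x‖ ^ 2 ≤ Fintype.card ι) :
    (Ph c ^ Fintype.card ι) ^ 2 ≤ (JJ φ c 1 0).toReal := by
  set P : ℝ := (JJ φ c 1 0).toReal with hP
  set m : ℕ := Fintype.card ι with hm
  have hk0 := key_k1 c φ hφ x hx 0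
  have q0 : 0 < qu c := qu_pos' c
  have p0 : 0 < p1 := p1_pos
  have hPpos : 0 < P := by
    have : 0 < P ^ 2 ^ 0 := lt_of_lt_of_le (by positivity) hk0
    simpa using this
  have hlog : ∀ k : ℕ, (-((bu c + 3 * ((Real.sqrt 2)⁻¹) ^ (k + 1)) ^ 2 * ‖x‖ ^ 2)) +
      m * (2 * Real.log (3/4 * p1) * (((Real.sqrt 2)⁻¹) ^ (k + 1)) ^ 2 + 2 * Real.log (qu c) -
        4 * bu c * ((Real.sqrt 2)⁻¹) ^ (k + 1)) ≤ Real.log P := by
    intro k
    have h1 := key_k1 c φ hφ x hx k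
    rw [← hP, ← hm] at h1
    have h2 := Real.log_le_log (by positivity) h1
    have e0 : Real.log (3/4 * qu c ^ 2 ^ (k + 1) *
        Real.exp (-(2 * (bu c * Real.sqrt 2 ^ (k + 1)))) * p1) =
        Real.log (3/4 * p1) + (((2 ^ (k + 1) : ℕ) : ℝ) * Real.log (qu c) +
          -(2 * (bu c * Real.sqrt 2 ^ (k + 1)))) := by
      have h34 : (0:ℝ) < 3/4 * p1 := by positivity
      have hqe : 0 < qu c ^ 2 ^ (k + 1) * Real.exp (-(2 * (bu c * Real.sqrt 2 ^ (k + 1)))) := by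
        positivity
      rw [show 3/4 * qu c ^ 2 ^ (k + 1) * Real.exp (-(2 * (bu c * Real.sqrt 2 ^ (k + 1)))) * p1 =
        (3/4 * p1) * (qu c ^ 2 ^ (k + 1) * Real.exp (-(2 * (bu c * Real.sqrt 2 ^ (k + 1)))))
          by ring,
        Real.log_mul h34.ne' hqe.ne', Real.log_mul (pow_pos q0 _).ne' (Real.exp_pos _).ne',
        Real.log_pow, Real.log_exp]
    rw [Real.log_mul (by positivity) (by positivity), Real.log_pow, Real.log_exp, Real.log_pow,
      Real.log_pow, e0] at h2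
    set r : ℝ := ((Real.sqrt 2)⁻¹) ^ (k + 1) with hr
    have hr0 : 0 < r := pow_pos (inv_pos.2 sqrt2_pos) _
    have hR : Real.sqrt 2 ^ (k + 1) = r⁻¹ := by rw [hr, inv_pow, inv_inv]
    have hN1 : ((2 ^ (k + 1) : ℕ) : ℝ) = (r⁻¹) ^ 2 := by
      rw [← hR, ← pow_mul, mul_comm, pow_mul, Real.sq_sqrt (by norm_num)]
      push_cast
      rfl
    have hN : ((2 ^ k : ℕ) : ℝ) = (r⁻¹) ^ 2 / 2 := by
      rw [← hN1, pow_succ]
      push_cast
      ring
    rw [hN, hN1, hR] at h2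
    have h3 := mul_le_mul_of_nonneg_left h2 (by positivity : (0:ℝ) ≤ 2 * r ^ 2)
    have hrr : r * r⁻¹ = 1 := mul_inv_cancel₀ hr0.ne'
    have e1 : (2 * r ^ 2) * (r⁻¹ ^ 2 / 2 * -((bu c + 3 / r⁻¹) ^ 2 * ‖x‖ ^ 2) +
        ↑m * (Real.log (3 / 4 * p1) + (r⁻¹ ^ 2 * Real.log (qu c) + -(2 * (bu c * r⁻¹))))) =
        (-((bu c + 3 * r) ^ 2 * ‖x‖ ^ 2)) +
      m * (2 * Real.log (3/4 * p1) * r ^ 2 + 2 * Real.log (qu c) - 4 * bu c * r) := by
      field_simp
      ring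
    have e2 : (2 * r ^ 2) * (r⁻¹ ^ 2 / 2 * Real.log P) = Real.log P := by
      field_simp
    rw [e1, e2] at h3
    exact h3
  have hr : Filter.Tendsto (fun k : ℕ => ((Real.sqrt 2)⁻¹) ^ (k + 1)) Filter.atTop (nhds 0) := by
    have : Filter.Tendsto (fun k : ℕ => ((Real.sqrt 2)⁻¹) ^ k) Filter.atTop (nhds 0) := by
      apply tendsto_pow_atTop_nhds_zero_of_lt_one (inv_nonneg.2 sqrt2_pos.le)
      apply inv_lt_one_of_one_lt₀
      rw [Real.lt_sqrt (by norm_num)]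
      norm_num
    exact this.comp (Filter.tendsto_add_atTop_nat 1)
  have hcont : Continuous (fun r : ℝ => (-((bu c + 3 * r) ^ 2 * ‖x‖ ^ 2)) +
      m * (2 * Real.log (3/4 * p1) * r ^ 2 + 2 * Real.log (qu c) - 4 * bu c * r)) := by fun_prop
  have hlim := (hcont.tendsto 0).comp hr
  have hle : (-((bu c + 3 * 0) ^ 2 * ‖x‖ ^ 2)) +
      m * (2 * Real.log (3/4 * p1) * 0 ^ 2 + 2 * Real.log (qu c) - 4 * bu c * 0) ≤ Real.log P :=
    le_of_tendsto' hlim hlog
  have hq : Real.log (qu c) = Real.log (Ph c) + bu c ^ 2 / 2 := by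
    unfold qu
    rw [Real.log_mul (Ph_pos c).ne' (Real.exp_pos _).ne', Real.log_exp]
  have h9 : 2 * (m * Real.log (Ph c)) ≤ Real.log P := by
    refine le_trans ?_ hle
    rw [hq]
    have : bu c ^ 2 * ‖x‖ ^ 2 ≤ bu c ^ 2 * m := mul_le_mul_of_nonneg_left hn (sq_nonneg _)
    nlinarith
  have h10 := Real.exp_le_exp.2 h9
  rw [Real.exp_log hPpos] at h10
  have e3 : Real.exp (2 * (↑m * Real.log (Ph c))) = (Ph c ^ m) ^ 2 := by
    rw [← Real.log_pow, ← Nat.cast_two (R := ℝ), ← Real.log_pow, Real.exp_log (by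
      have := Ph_pos c
      positivity)]
  rw [e3] at h10
  exact h10

end Pool.Agent.R972.CM
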