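import Pool.Agent.TH84.HC.Gauss

/-!
# Representations of Gaussian vectors
-/

set_option autoImplicit false

open MeasureTheory ProbabilityTheory
open scoped RealInnerProductSpace ENNReal

namespace Pool.Agent.R972.CM

open Pool.Agent.PZ871 (E gm)
open Pool.Agent.TH84.HC

theorem rep_meas {n m : ℕ} (φ : Fin m → E n) :
    Measurable (fun g : E n => (WithLp.toLp 2 (fun i => ⟪g, φ i⟫) : E m)) := by
  have h : Measurable (fun g : E n => (fun i => ⟪g, φ i⟫ : Fin m → ℝ)) :=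
    measurable_pi_lambda _ fun i => by fun_prop
  exact (PiLp.volume_preserving_toLp (Fin m)).measurable.comp h

theorem rep {n m : ℕ} (R : Matrix (Fin m) (Fin m) ℝ) (hR : R.PosSemidef) (φ : Fin m → E n)
    (h : ∀ i j, ⟪φ i, φ j⟫ = R i j) :
    multivariateGaussian 0 R = (gm n).map (fun g => (WithLp.toLp 2 (fun i => ⟪g, φ i⟫) : E m)) := by
  have hm := rep_meas φ
  have : IsProbabilityMeasure ((gm n).map
      (fun g => (WithLp.toLp 2 (fun i => ⟪g, φ i⟫) : E m))) :=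
    Measure.isProbabilityMeasure_map hm.aemeasurable
  apply Measure.ext_of_charFun
  funext t
  rw [charFun_multivariateGaussian hR, charFun_apply, integral_map hm.aemeasurable (by fun_prop)]
  have h1 : ∀ g : E n, ⟪(WithLp.toLp 2 (fun i => ⟪g, φ i⟫) : E m), t⟫ = ⟪g, ∑ i, t i • φ i⟫ := by
    intro g
    rw [inner_sum, PiLp.inner_apply]
    refine Finset.sum_congr rfl fun i _ => ?_
    rw [inner_smul_right]
    simp
  simp only [h1]
  have h2 := charFun_stdGaussian (E := E n) (∑ i, t i • φ i)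
  rw [charFun_apply] at h2
  unfold gm
  rw [h2]
  congr 1
  have h3 : ‖∑ i, t i • φ i‖ ^ 2 = (t : Fin m → ℝ) ⬝ᵥ R.mulVec t := by
    rw [← real_inner_self_eq_norm_sq, sum_inner]
    simp only [dotProduct, Matrix.mulVec]
    refine Finset.sum_congr rfl fun i _ => ?_
    rw [inner_sum, Finset.mul_sum]
    refine Finset.sum_congr rfl fun j _ => ?_
    rw [inner_smul_left, inner_smul_right, h i j]
    simp only [conj_trivial]
    ring
  have h4 : ((‖∑ i, t i • φ i‖ : ℝ) : ℂ) ^ 2 = (((t : Fin m → ℝ) ⬝ᵥ R.mulVec t : ℝ) : ℂ) := by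
    rw [← h3]
    push_cast
    rfl
  rw [h4, inner_zero_right]
  simp
  ring

open scoped MatrixOrder in
theorem gram0 (m : ℕ) (G : Matrix (Fin m) (Fin m) ℝ) (hG : G.PosSemidef) :
    ∃ B : Matrix (Fin m) (Fin m) ℝ, ∀ i j, ∑ k, B k i * B k j = G i j := by
  obtain ⟨B, hB⟩ := CStarAlgebra.nonneg_iff_eq_star_mul_self.mp hG.nonneg
  refine ⟨B, fun i j => ?_⟩
  rw [hB, Matrix.mul_apply]
  refine Finset.sum_congr rfl fun k _ => ?_
  simp [Matrix.star_apply]

/-- Gram vectors of a correlation matrix together with an orthogonal unit vector -/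
theorem gram (m : ℕ) (G : Matrix (Fin m) (Fin m) ℝ) (hG : G.PosSemidef) :
    ∃ ψ : Fin m → E (m + 1), ∃ e : E (m + 1), ‖e‖ = 1 ∧ (∀ i, ⟪e, ψ i⟫ = 0) ∧
      (∀ i j, ⟪ψ i, ψ j⟫ = G i j) := by
  obtain ⟨B, hB⟩ := gram0 m G hG
  refine ⟨fun i => WithLp.toLp 2 (Fin.cons 0 (fun k => B k i)), WithLp.toLp 2 (Fin.cons 1 0),
    ?_, ?_, ?_⟩
  · rw [EuclideanSpace.norm_eq, Fin.sum_univ_succ]
    simp
  · intro i
    rw [PiLp.inner_apply, Fin.sum_univ_succ]
    simp
  · intro i j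
    rw [PiLp.inner_apply, Fin.sum_univ_succ]
    simp only [Fin.cons_zero, Fin.cons_succ]
    rw [← hB i j]
    simp only [inner_zero_left, zero_add]
    refine Finset.sum_congr rfl fun k _ => ?_
    simp [mul_comm]

theorem gram_mix {n : ℕ} {m : ℕ} (G : Matrix (Fin m) (Fin m) ℝ) (ψ : Fin m → E n) (e : E n)
    (he : ‖e‖ = 1) (h0 : ∀ i, ⟪e, ψ i⟫ = 0) (h1 : ∀ i j, ⟪ψ i, ψ j⟫ = G i j) (a b : ℝ)
    (i j : Fin m) : ⟪a • ψ i + b • e, a • ψ j + b • e⟫ = a ^ 2 * G i j + b ^ 2 := by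
  have h0' : ⟪ψ i, e⟫ = 0 := by rw [real_inner_comm]; exact h0 i
  rw [inner_add_left, inner_add_right, inner_add_right, inner_smul_left, inner_smul_left,
    inner_smul_left, inner_smul_left, inner_smul_right, inner_smul_right, inner_smul_right,
    inner_smul_right, h1, h0', h0 j, real_inner_self_eq_norm_sq, he]
  simp only [conj_trivial]
  ring

theorem gram_e {n : ℕ} {m : ℕ} (ψ : Fin m → E n) (e : E n)
    (he : ‖e‖ = 1) (h0 : ∀ i, ⟪e, ψ i⟫ = 0) (a b : ℝ) (i : Fin m) :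
    ⟪e, a • ψ i + b • e⟫ = b := by
  rw [inner_add_right, inner_smul_right, inner_smul_right, h0 i, real_inner_self_eq_norm_sq, he]
  ring

end Pool.Agent.R972.CM
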