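import Pool.Agent.R972.CM.Q1
import Pool.Agent.R972.CM.Rep

/-!
# The orthant comparison for matrices
-/

set_option autoImplicit false

open MeasureTheory ProbabilityTheory
open scoped RealInnerProductSpace ENNReal

namespace Pool.Agent.R972.CM

open Pool.Agent.PZ871 (E gm)
open Pool.Agent.TH84.HC

theorem Ph_eq_cdf (c : ℝ) : Ph c = cdf (gaussianReal 0 1) c := by
  rw [cdf_eq_real]
  unfold Ph Measure.real
  congr 1
  exact measure_congr (Iio_ae_eq_Iic' (g1_null c))

theorem orth_meas (m : ℕ) (c : ℝ) :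
    MeasurableSet {x : EuclideanSpace ℝ (Fin m) | ∀ i, x i ≤ c} := by
  have : {x : EuclideanSpace ℝ (Fin m) | ∀ i, x i ≤ c} =
      ⋂ i, {x : EuclideanSpace ℝ (Fin m) | x i ≤ c} := by
    ext y
    simp
  rw [this]
  exact MeasurableSet.iInter fun i => measurableSet_le (by fun_prop) (by fun_prop)

theorem orth_rep {n m : ℕ} (R : Matrix (Fin m) (Fin m) ℝ) (hR : R.PosSemidef) (φ : Fin m → E n)
    (h : ∀ i j, ⟪φ i, φ j⟫ = R i j) (c : ℝ) :
    (multivariateGaussian 0 R).real {x : EuclideanSpace ℝ (Fin m) | ∀ i, x i ≤ c} =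
      (gm n).real {y | ∀ i, ⟪y, φ i⟫ ≤ c} := by
  rw [rep R hR φ h]
  unfold Measure.real
  rw [Measure.map_apply (rep_meas φ) (orth_meas m c)]
  rfl

theorem orth_one (m : ℕ) (c : ℝ) :
    (multivariateGaussian 0 (1 : Matrix (Fin m) (Fin m) ℝ)).real
      {x : EuclideanSpace ℝ (Fin m) | ∀ i, x i ≤ c} = (cdf (gaussianReal 0 1) c) ^ m := by
  rw [multivariateGaussian_zero_one, ← map_pi_eq_stdGaussian]
  unfold Measure.real
  have hmeas : Measurable (WithLp.toLp 2 : (Fin m → ℝ) → E m) :=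
    (PiLp.volume_preserving_toLp (Fin m)).measurable
  rw [Measure.map_apply hmeas (orth_meas m c)]
  have e : (WithLp.toLp 2 : (Fin m → ℝ) → E m) ⁻¹'
      {x : EuclideanSpace ℝ (Fin m) | ∀ i, x i ≤ c} = Set.univ.pi fun _ => Set.Iic c := by
    ext x
    simp [Pi.le_def]
  rw [e, Measure.pi_pi]
  simp only [Finset.prod_const, Finset.card_univ, Fintype.card_fin, ENNReal.toReal_pow]
  rw [cdf_eq_real]
  rfl

/-- the strict comparison -/
theorem strictQ1 (m : ℕ) (hm : 0 < m) (R : Matrix (Fin m) (Fin m) ℝ) (hR : R.PosSemidef)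
    (hd : ∀ i, R i i = 1) (hdom : (R - (1 / (m:ℝ)) • (Matrix.of fun _ _ => (1:ℝ))).PosSemidef)
    (hne : R ≠ 1) (c : ℝ) :
    (cdf (gaussianReal 0 1) c) ^ m <
      (multivariateGaussian 0 R).real {x : EuclideanSpace ℝ (Fin m) | ∀ i, x i ≤ c} := by
  have hm0 : (0:ℝ) < m := by exact_mod_cast hm
  obtain ⟨i, j, hij, hRij⟩ : ∃ i j, i ≠ j ∧ R i j ≠ 0 := by
    by_contra hcon
    push Not at hcon
    apply hne
    ext i j
    by_cases h : i = j
    · subst h
      rw [hd, Matrix.one_apply_eq]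
    · rw [hcon i j h, Matrix.one_apply_ne h]
  obtain ⟨ψ, e, he, h0, h1⟩ := gram m _ hdom
  set b : ℝ := 1 / Real.sqrt m with hb
  have hsq : Real.sqrt m ≠ 0 := (Real.sqrt_pos.2 hm0).ne'
  have hb2 : b ^ 2 = 1 / m := by
    rw [hb, div_pow, Real.sq_sqrt hm0.le]
    norm_num
  set φ : Fin m → E (m + 1) := fun i => (1:ℝ) • ψ i + b • e with hφd
  have hφ : ∀ i j, ⟪φ i, φ j⟫ = R i j := by
    intro i j
    rw [hφd]
    simp only
    rw [gram_mix _ ψ e he h0 h1 1 b i j, hb2]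
    simp
  have hunit : ∀ i, ‖φ i‖ = 1 := by
    intro i
    have := hφ i i
    rw [hd, real_inner_self_eq_norm_sq] at this
    have h2 := norm_nonneg (φ i)
    nlinarith
  have hx : ∀ i, ⟪Real.sqrt m • e, φ i⟫ = 1 := by
    intro i
    rw [inner_smul_left, gram_e ψ e he h0 1 b i]
    simp only [conj_trivial]
    rw [hb]
    field_simp
  have hn : ‖Real.sqrt m • e‖ ^ 2 ≤ Fintype.card (Fin m) := by
    rw [norm_smul, he, Real.norm_eq_abs, mul_one, sq_abs, Real.sq_sqrt hm0.le, Fintype.card_fin]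
  have key := orthant_strict φ hunit (Real.sqrt m • e) hx hn i j hij (by rw [hφ]; exact hRij) c
  rw [Fintype.card_fin, Ph_eq_cdf] at key
  rw [orth_rep R hR φ hφ c]
  refine lt_of_lt_of_le key ?_
  refine measureReal_mono ?_ (measure_ne_top _ _)
  intro y hy k
  exact (hy k).le

theorem Q1_iff (m : ℕ) (hm : 0 < m) (R : Matrix (Fin m) (Fin m) ℝ) (hR : R.PosSemidef)
    (hd : ∀ i, R i i = 1) (hdom : (R - (1 / (m:ℝ)) • (Matrix.of fun _ _ => (1:ℝ))).PosSemidef)
    (c : ℝ) :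
    (multivariateGaussian 0 R).real {x : EuclideanSpace ℝ (Fin m) | ∀ i, x i ≤ c} =
      (cdf (gaussianReal 0 1) c) ^ m ↔ R = 1 := by
  constructor
  · intro h
    by_contra hne
    exact absurd h (strictQ1 m hm R hR hd hdom hne c).ne'
  · rintro rfl
    exact orth_one m c

end Pool.Agent.R972.CM
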