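import Pool.Agent.R972.CM.Main1

/-!
# The exponential moments of the maximum
-/

set_option autoImplicit false

open MeasureTheory ProbabilityTheory
open scoped RealInnerProductSpace ENNReal

namespace Pool.Agent.R972.CM

open Pool.Agent.PZ871 (E gm)
open Pool.Agent.TH84.HC

/-- exponential moment of the maximum -/
noncomputable def LL {n m : ℕ} (φ : Fin m → E n) (μ : ℝ) : ℝ≥0∞ :=
  ∫⁻ g, ENNReal.ofReal (Real.exp (μ * ⨆ i, ⟪g, φ i⟫)) ∂(gm n)

theorem M_meas {n m : ℕ} (φ : Fin m → E n) : Measurable (fun g : E n => ⨆ i, ⟪g, φ i⟫) :=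
  Measurable.iSup fun i => by fun_prop

theorem layer (μ : ℝ) (hμ : 0 < μ) (M : ℝ) : ENNReal.ofReal (Real.exp (μ * M)) =
    ∫⁻ c, (Set.Iio M).indicator (fun c => ENNReal.ofReal (μ * Real.exp (μ * c))) c := by
  rw [lintegral_indicator measurableSet_Iio]
  have h1 : IntegrableOn (fun c => μ * Real.exp (μ * c)) (Set.Iio M) :=
    ((integrableOn_exp_mul_Iic hμ M).mono_set Set.Iio_subset_Iic_self).const_mul μ
  rw [← ofReal_integral_eq_lintegral_ofReal h1
    (Filter.Eventually.of_forall fun c => by positivity)]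
  rw [← integral_Iic_eq_integral_Iio, integral_const_mul, integral_exp_mul_Iic hμ]
  congr 1
  field_simp

theorem LL_layer {n m : ℕ} (φ : Fin m → E n) (μ : ℝ) (hμ : 0 < μ) :
    LL φ μ = ∫⁻ c, (gm n) {g | c < ⨆ i, ⟪g, φ i⟫} * ENNReal.ofReal (μ * Real.exp (μ * c)) := by
  unfold LL
  simp only [layer μ hμ]
  have hM := M_meas φ
  have hmeas : Measurable (Function.uncurry fun (g : E n) (c : ℝ) =>
      (Set.Iio (⨆ i, ⟪g, φ i⟫)).indicator (fun c => ENNReal.ofReal (μ * Real.exp (μ * c))) c) := by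
    have : (Function.uncurry fun (g : E n) (c : ℝ) =>
      (Set.Iio (⨆ i, ⟪g, φ i⟫)).indicator (fun c => ENNReal.ofReal (μ * Real.exp (μ * c))) c) =
      fun p : E n × ℝ => if p.2 < ⨆ i, ⟪p.1, φ i⟫ then ENNReal.ofReal (μ * Real.exp (μ * p.2))
        else 0 := by
      funext p
      simp only [Function.uncurry, Set.indicator_apply, Set.mem_Iio]
    rw [this]
    exact Measurable.ite (measurableSet_lt measurable_snd (hM.comp measurable_fst))
      (by fun_prop) measurable_const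
  rw [lintegral_lintegral_swap hmeas.aemeasurable]
  refine lintegral_congr fun c => ?_
  have hs : MeasurableSet {g : E n | c < ⨆ i, ⟪g, φ i⟫} := measurableSet_lt measurable_const hM
  rw [← lintegral_indicator_one hs, ← lintegral_mul_const _ (measurable_one.indicator hs)]
  refine lintegral_congr fun g => ?_
  by_cases h : c < ⨆ i, ⟪g, φ i⟫
  · rw [Set.indicator_of_mem (by exact h), Set.indicator_of_mem (by exact h)]
    simp
  · rw [Set.indicator_of_notMem (by exact h), Set.indicator_of_notMem (by exact h)]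
    simp

theorem lt_sup_compl {n m : ℕ} (hm : 0 < m) (φ : Fin m → E n) (c : ℝ) :
    {g : E n | c < ⨆ i, ⟪g, φ i⟫} = {g : E n | ∀ i, ⟪g, φ i⟫ ≤ c}ᶜ := by
  have : Nonempty (Fin m) := ⟨⟨0, hm⟩⟩
  ext g
  simp only [Set.mem_compl_iff]
  constructor
  · intro h h'
    exact absurd (ciSup_le h') (not_le.2 h)
  · intro h
    have h1 : ∃ i, c < ⟪g, φ i⟫ := by
      by_contra hcon
      push Not at hcon
      exact h hcon
    obtain ⟨i, hi⟩ := h1
    exact lt_of_lt_of_le hi (le_ciSup (Set.finite_range fun i => ⟪g, φ i⟫).bddAbove i)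

theorem LL_exp {n : ℕ} (b : E n) :
    ∫⁻ g, ENNReal.ofReal (Real.exp ⟪b, g⟫) ∂(gm n) = ENNReal.ofReal (Real.exp (‖b‖ ^ 2 / 2)) := by
  have h := cm_lint n b (fun _ => 1) measurable_const
  simp only [mul_one, lintegral_one, measure_univ] at h
  have e : ∀ g : E n, ENNReal.ofReal (Real.exp ⟪b, g⟫) =
      ENNReal.ofReal (Real.exp (‖b‖ ^ 2 / 2)) *
        ENNReal.ofReal (Real.exp (⟪b, g⟫ - ‖b‖ ^ 2 / 2)) := by
    intro g
    rw [← ENNReal.ofReal_mul (Real.exp_pos _).le, ← Real.exp_add]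
    congr 2
    ring
  simp only [e]
  rw [lintegral_const_mul _ (by fun_prop), ← h, mul_one]

theorem LL_ne_top {n m : ℕ} (hm : 0 < m) (φ : Fin m → E n) (μ : ℝ) :
    LL φ μ ≠ ⊤ := by
  have : Nonempty (Fin m) := ⟨⟨0, hm⟩⟩
  have h1 : LL φ μ ≤ ∫⁻ g, ∑ i, ENNReal.ofReal (Real.exp ⟪μ • φ i, g⟫) ∂(gm n) := by
    unfold LL
    refine lintegral_mono fun g => ?_
    obtain ⟨i, hi⟩ := exists_eq_ciSup_of_finite (f := fun i => ⟪g, φ i⟫)
    rw [← hi]
    refine le_trans (le_of_eq ?_)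
      (Finset.single_le_sum (f := fun i => ENNReal.ofReal (Real.exp ⟪μ • φ i, g⟫))
        (fun _ _ => zero_le) (Finset.mem_univ i))
    simp only
    rw [inner_smul_left, real_inner_comm]
    simp
  refine ne_top_of_le_ne_top ?_ h1
  rw [lintegral_finsetSum _ (fun i _ => by fun_prop)]
  simp only [LL_exp]
  exact (ENNReal.sum_lt_top.2 fun i _ => ENNReal.ofReal_lt_top).ne

/-- adding a common independent component -/
theorem LL_mix {n m : ℕ} (hm : 0 < m) (ψ : Fin m → E n) (e : E n) (he : ‖e‖ = 1)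
    (h0 : ∀ i, ⟪e, ψ i⟫ = 0) (a b μ : ℝ) (ha : 0 < a) :
    LL (fun i => a • ψ i + b • e) μ =
      ENNReal.ofReal (Real.exp ((μ * b) ^ 2 / 2)) * LL ψ (μ * a) := by
  have : Nonempty (Fin m) := ⟨⟨0, hm⟩⟩
  have hM := M_meas ψ
  have h := cm_lint n ((μ * b) • e)
    (fun g => ENNReal.ofReal (Real.exp ((μ * a) * ⨆ i, ⟪g, ψ i⟫))) (by fun_prop)
  have h1 : ∀ g : E n, ⨆ i, ⟪g + (μ * b) • e, ψ i⟫ = ⨆ i, ⟪g, ψ i⟫ := by
    intro g
    congr 1
    funext i
    rw [inner_add_left, inner_smul_left, h0 i]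
    simp
  simp only [h1] at h
  have hL : LL ψ (μ * a) = ∫⁻ g, ENNReal.ofReal (Real.exp ((μ * a) * ⨆ i, ⟪g, ψ i⟫)) ∂(gm n) := rfl
  rw [hL, h]
  have hmm : Measurable (fun g : E n => ENNReal.ofReal (Real.exp (⟪(μ * b) • e, g⟫ -
      ‖(μ * b) • e‖ ^ 2 / 2)) * ENNReal.ofReal (Real.exp ((μ * a) * ⨆ i, ⟪g, ψ i⟫))) := by
    fun_prop
  rw [← lintegral_const_mul _ hmm]
  unfold LL
  refine lintegral_congr fun g => ?_
  have h2 : ⨆ i, ⟪g, a • ψ i + b • e⟫ = a * (⨆ i, ⟪g, ψ i⟫) + b * ⟪g, e⟫ := by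
    rw [Real.mul_iSup_of_nonneg ha.le, ciSup_add (Set.finite_range _).bddAbove]
    congr 1
    funext i
    rw [inner_add_right, inner_smul_right, inner_smul_right]
  rw [h2, ← ENNReal.ofReal_mul (Real.exp_pos _).le, ← ENNReal.ofReal_mul (Real.exp_pos _).le,
    ← Real.exp_add, ← Real.exp_add, norm_smul, he, inner_smul_left, real_inner_comm]
  congr 2
  simp only [Real.norm_eq_abs, mul_one, sq_abs, conj_trivial]
  rw [real_inner_comm]
  ring

end Pool.Agent.R972.CM
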