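import Pool.Agent.R972.CM.Main2

/-!
# The comparison of exponential moments
-/

set_option autoImplicit false

open MeasureTheory ProbabilityTheory
open scoped RealInnerProductSpace ENNReal

namespace Pool.Agent.R972.CM

open Pool.Agent.PZ871 (E gm)
open Pool.Agent.TH84.HC

/-- the simplex correlation matrix -/
noncomputable def Gt (m : ℕ) : Matrix (Fin m) (Fin m) ℝ :=
  ((m:ℝ) / (m - 1)) • ((1 : Matrix (Fin m) (Fin m) ℝ) - (1 / (m:ℝ)) • (Matrix.of fun _ _ => (1:ℝ)))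

theorem Gt_psd (m : ℕ) (hm : 2 ≤ m) : (Gt m).PosSemidef := by
  have hm1 : (2:ℝ) ≤ m := by exact_mod_cast hm
  have hm0 : (0:ℝ) < m := by linarith
  have hP : ((1 : Matrix (Fin m) (Fin m) ℝ) - (1 / (m:ℝ)) • (Matrix.of fun _ _ => (1:ℝ))) =
      (((1 : Matrix (Fin m) (Fin m) ℝ) - (1 / (m:ℝ)) • (Matrix.of fun _ _ => (1:ℝ)))).conjTranspose *
      ((1 : Matrix (Fin m) (Fin m) ℝ) - (1 / (m:ℝ)) • (Matrix.of fun _ _ => (1:ℝ))) := by
    ext i j
    rw [Matrix.mul_apply]
    simp only [Matrix.conjTranspose_apply, Matrix.sub_apply, Matrix.smul_apply, Matrix.of_apply,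
      smul_eq_mul, mul_one, star_trivial, Matrix.one_apply]
    have : ∀ k : Fin m, ((if k = i then (1:ℝ) else 0) - 1 / (m:ℝ)) *
        ((if k = j then (1:ℝ) else 0) - 1 / (m:ℝ)) =
        (if k = i then (if i = j then (1:ℝ) else 0) else 0) -
        (1 / (m:ℝ)) * (if k = i then (1:ℝ) else 0) - (1 / (m:ℝ)) * (if k = j then (1:ℝ) else 0)
        + 1 / (m:ℝ) ^ 2 := by
      intro k
      by_cases h1 : k = i
      · subst h1
        by_cases h2 : k = j
        · subst h2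
          simp
          ring
        · simp [h2]
          ring
      · by_cases h2 : k = j
        · rw [if_neg h1, if_pos h2, if_neg h1]
          ring
        · rw [if_neg h1, if_neg h2, if_neg h1]
          ring
    simp only [this]
    rw [Finset.sum_add_distrib, Finset.sum_sub_distrib, Finset.sum_sub_distrib, ← Finset.mul_sum,
      ← Finset.mul_sum]
    simp only [Finset.sum_ite_eq', Finset.mem_univ, if_true, Finset.sum_const, Finset.card_univ,
      Fintype.card_fin, nsmul_eq_mul]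
    field_simp
    ring
  unfold Gt
  refine Matrix.PosSemidef.smul ?_ (by
    apply div_nonneg hm0.le
    linarith)
  rw [hP]
  exact Matrix.posSemidef_conjTranspose_mul_self _

theorem meas_lt {n n' m : ℕ} (hm : 0 < m) (R : Matrix (Fin m) (Fin m) ℝ)
    (hR : R.PosSemidef) (φ : Fin m → E n) (hφ : ∀ i j, ⟪φ i, φ j⟫ = R i j)
    (φ0 : Fin m → E n') (h0 : ∀ i j, ⟪φ0 i, φ0 j⟫ = (1 : Matrix (Fin m) (Fin m) ℝ) i j) (c : ℝ)
    (hstr : (cdf (gaussianReal 0 1) c) ^ m <
      (multivariateGaussian 0 R).real {x : EuclideanSpace ℝ (Fin m) | ∀ i, x i ≤ c}) :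
    (gm n) {g | c < ⨆ i, ⟪g, φ i⟫} < (gm n') {g | c < ⨆ i, ⟪g, φ0 i⟫} := by
  rw [orth_rep R hR φ hφ c, ← orth_one m c, orth_rep 1 Matrix.PosSemidef.one φ0 h0 c] at hstr
  rw [lt_sup_compl hm φ c, lt_sup_compl hm φ0 c]
  have m1 : MeasurableSet {g : E n | ∀ i, ⟪g, φ i⟫ ≤ c} := by
    have : {g : E n | ∀ i, ⟪g, φ i⟫ ≤ c} = ⋂ i, {g : E n | ⟪g, φ i⟫ ≤ c} := by
      ext y
      simp
    rw [this]
    exact MeasurableSet.iInter fun i => measurableSet_le (by fun_prop) (by fun_prop)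
  have m2 : MeasurableSet {g : E n' | ∀ i, ⟪g, φ0 i⟫ ≤ c} := by
    have : {g : E n' | ∀ i, ⟪g, φ0 i⟫ ≤ c} = ⋂ i, {g : E n' | ⟪g, φ0 i⟫ ≤ c} := by
      ext y
      simp
    rw [this]
    exact MeasurableSet.iInter fun i => measurableSet_le (by fun_prop) (by fun_prop)
  refine (ENNReal.toReal_lt_toReal (measure_ne_top _ _) (measure_ne_top _ _)).1 ?_
  have e1 := probReal_compl_eq_one_sub (μ := gm n) m1
  have e2 := probReal_compl_eq_one_sub (μ := gm n') m2
  unfold Measure.real at e1 e2 hstr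
  rw [e1, e2]
  linarith

theorem LL_strict {n n' m : ℕ} (hm : 0 < m) (R : Matrix (Fin m) (Fin m) ℝ)
    (hR : R.PosSemidef) (φ : Fin m → E n) (hφ : ∀ i j, ⟪φ i, φ j⟫ = R i j)
    (φ0 : Fin m → E n') (h0 : ∀ i j, ⟪φ0 i, φ0 j⟫ = (1 : Matrix (Fin m) (Fin m) ℝ) i j)
    (hstr : ∀ c, (cdf (gaussianReal 0 1) c) ^ m <
      (multivariateGaussian 0 R).real {x : EuclideanSpace ℝ (Fin m) | ∀ i, x i ≤ c})
    (μ : ℝ) (hμ : 0 < μ) : LL φ μ < LL φ0 μ := by
  have hfin := LL_ne_top hm φ μ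
  rw [LL_layer φ μ hμ] at hfin
  rw [LL_layer φ μ hμ, LL_layer φ0 μ hμ]
  have hmeas : Measurable (fun c : ℝ => (gm n') {g | c < ⨆ i, ⟪g, φ0 i⟫}) := by
    refine Antitone.measurable fun c d hcd => measure_mono fun g hg => ?_
    exact lt_of_le_of_lt hcd hg
  have hvol : (volume : Measure ℝ) ≠ 0 := by
    intro h
    have : (volume : Measure ℝ) Set.univ = 0 := by rw [h]; simp
    simp at this
  refine lintegral_strict_mono hvol ?_ hfin ?_
  · exact (hmeas.mul (by fun_prop)).aemeasurable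
  · refine Filter.Eventually.of_forall fun c => ?_
    have h1 := meas_lt hm R hR φ hφ φ0 h0 c (hstr c)
    have hw : ENNReal.ofReal (μ * Real.exp (μ * c)) ≠ 0 := by
      simp only [ne_eq, ENNReal.ofReal_eq_zero, not_le]
      positivity
    exact (ENNReal.mul_lt_mul_iff_left hw ENNReal.ofReal_ne_top).2 h1

theorem int_eq_LL {n m : ℕ} (G : Matrix (Fin m) (Fin m) ℝ) (hG : G.PosSemidef) (ψ : Fin m → E n)
    (h : ∀ i j, ⟪ψ i, ψ j⟫ = G i j) (l : ℝ) :
    ∫ x, Real.exp (l * ⨆ i, x i) ∂(multivariateGaussian 0 G) = (LL ψ l).toReal := by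
  have hmx : Measurable (fun x : E m => ⨆ i, x i) := Measurable.iSup fun i => by fun_prop
  rw [rep G hG ψ h, integral_map (rep_meas ψ).aemeasurable
    (by exact (by fun_prop : Measurable fun x : E m => Real.exp (l * ⨆ i, x i)).aestronglyMeasurable),
    integral_eq_lintegral_of_nonneg_ae (Filter.Eventually.of_forall fun g => (Real.exp_pos _).le)
    (by
      have := M_meas ψ
      exact (by fun_prop : Measurable fun g : E n => Real.exp (l * ⨆ i, ⟪g, ψ i⟫)).aestronglyMeasurable)]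
  rfl

/-- the strict comparison of exponential moments -/
theorem strictQ2 (m : ℕ) (hm : 2 ≤ m) (G : Matrix (Fin m) (Fin m) ℝ) (hG : G.PosSemidef)
    (hd : ∀ i, G i i = 1) (hne : G ≠ Gt m) (l : ℝ) (hl : 0 < l) :
    ∫ x, Real.exp (l * ⨆ i, x i) ∂(multivariateGaussian 0 G) <
      ∫ x, Real.exp (l * ⨆ i, x i) ∂(multivariateGaussian 0 (Gt m)) := by
  have hm1 : (2:ℝ) ≤ m := by exact_mod_cast hm
  have hm0 : (0:ℝ) < m := by linarith
  have hm0' : 0 < m := by omega
  set t : ℝ := ((m:ℝ) - 1) / m with ht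
  have ht0 : 0 < t := div_pos (by linarith) hm0
  set a : ℝ := Real.sqrt t with ha
  have ha0 : 0 < a := Real.sqrt_pos.2 ht0
  have ha2 : a ^ 2 = t := Real.sq_sqrt ht0.le
  set b : ℝ := 1 / Real.sqrt m with hb
  have hb2 : b ^ 2 = 1 / m := by
    rw [hb, div_pow, Real.sq_sqrt hm0.le]
    norm_num
  set Jm : Matrix (Fin m) (Fin m) ℝ := Matrix.of fun _ _ => (1:ℝ) with hJ
  have hJpsd : Jm.PosSemidef := by
    have := Matrix.posSemidef_vecMulVec_self_star (fun _ : Fin m => (1:ℝ))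
    convert this using 1
    ext i j
    simp [hJ, Matrix.vecMulVec_apply]
  set R : Matrix (Fin m) (Fin m) ℝ := t • G + (1 / (m:ℝ)) • Jm with hRd
  have hR : R.PosSemidef := (hG.smul ht0.le).add (hJpsd.smul (by positivity))
  have hRent : ∀ i j, R i j = t * G i j + 1 / m := by
    intro i j
    simp [hRd, hJ]
  have hRd1 : ∀ i, R i i = 1 := by
    intro i
    rw [hRent, hd, ht]
    field_simp
    ring
  have hdom : (R - (1 / (m:ℝ)) • (Matrix.of fun _ _ => (1:ℝ))).PosSemidef := by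
    have : R - (1 / (m:ℝ)) • (Matrix.of fun _ _ => (1:ℝ)) = t • G := by
      ext i j
      simp [hRd, hJ]
    rw [this]
    exact hG.smul ht0.le
  have hRne : R ≠ 1 := by
    intro h
    apply hne
    ext i j
    have h1 := hRent i j
    rw [h] at h1
    have h2 : G i j = ((1 : Matrix (Fin m) (Fin m) ℝ) i j - 1 / m) / t := by
      rw [h1]
      field_simp
      ring
    rw [h2]
    simp only [Gt, Matrix.smul_apply, Matrix.sub_apply, Matrix.of_apply, smul_eq_mul, mul_one]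
    rw [ht]
    have : (m:ℝ) - 1 ≠ 0 := by linarith
    field_simp
  have hstr := strictQ1 m hm0' R hR hRd1 hdom hRne
  obtain ⟨ψ, e, he, h0, h1⟩ := gram m G hG
  obtain ⟨ψ', e', he', h0', h1'⟩ := gram m (Gt m) (Gt_psd m hm)
  have hφ : ∀ i j, ⟪a • ψ i + b • e, a • ψ j + b • e⟫ = R i j := by
    intro i j
    rw [gram_mix G ψ e he h0 h1 a b i j, ha2, hb2, hRent]
  have hφ0 : ∀ i j, ⟪a • ψ' i + b • e', a • ψ' j + b • e'⟫ =
      (1 : Matrix (Fin m) (Fin m) ℝ) i j := by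
    intro i j
    rw [gram_mix (Gt m) ψ' e' he' h0' h1' a b i j, ha2, hb2, ht]
    simp only [Gt, Matrix.smul_apply, Matrix.sub_apply, Matrix.of_apply, smul_eq_mul, mul_one]
    have : (m:ℝ) - 1 ≠ 0 := by linarith
    field_simp
    ring
  have hμ : 0 < l / a := div_pos hl ha0
  have key := LL_strict hm0' R hR (fun i => a • ψ i + b • e) hφ (fun i => a • ψ' i + b • e') hφ0
    hstr (l / a) hμ
  rw [LL_mix hm0' ψ e he h0 a b (l / a) ha0, LL_mix hm0' ψ' e' he' h0' a b (l / a) ha0,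
    div_mul_cancel₀ l ha0.ne'] at key
  have hc0 : ENNReal.ofReal (Real.exp ((l / a * b) ^ 2 / 2)) ≠ 0 := by
    simp only [ne_eq, ENNReal.ofReal_eq_zero, not_le]
    positivity
  rw [ENNReal.mul_lt_mul_iff_right hc0 ENNReal.ofReal_ne_top] at key
  rw [int_eq_LL G hG ψ h1 l, int_eq_LL (Gt m) (Gt_psd m hm) ψ' h1' l]
  exact (ENNReal.toReal_lt_toReal (LL_ne_top hm0' ψ l) (LL_ne_top hm0' ψ' l)).2 key

theorem Q2_iff (m : ℕ) (hm : 2 ≤ m) (G : Matrix (Fin m) (Fin m) ℝ) (hG : G.PosSemidef)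
    (hd : ∀ i, G i i = 1) (l : ℝ) (hl : 0 < l) :
    ∫ x, Real.exp (l * ⨆ i, x i) ∂(multivariateGaussian 0 G) =
      ∫ x, Real.exp (l * ⨆ i, x i) ∂(multivariateGaussian 0 (Gt m)) ↔ G = Gt m := by
  constructor
  · intro h
    by_contra hne
    exact absurd h (strictQ2 m hm G hG hd hne l hl).ne
  · rintro rfl
    rfl

end Pool.Agent.R972.CM

namespace Pool.Agent.R972.CM

open Pool.Agent.PZ871 (E gm)
open Pool.Agent.TH84.HC

theorem integ (m : ℕ) (hm : 0 < m) (G : Matrix (Fin m) (Fin m) ℝ) (hG : G.PosSemidef) (l : ℝ) :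
    Integrable (fun x : EuclideanSpace ℝ (Fin m) => Real.exp (l * ⨆ i, x i))
      (multivariateGaussian 0 G) := by
  obtain ⟨ψ, e, he, h0, h1⟩ := gram m G hG
  have hmx : Measurable (fun x : E m => ⨆ i, x i) := Measurable.iSup fun i => by fun_prop
  have hM := M_meas ψ
  rw [rep G hG ψ h1, integrable_map_measure
    (by exact (by fun_prop : Measurable fun x : E m => Real.exp (l * ⨆ i, x i)).aestronglyMeasurable)
    (rep_meas ψ).aemeasurable]
  have hI : Integrable (fun g : E (m + 1) => Real.exp (l * ⨆ i, ⟪g, ψ i⟫)) (gm (m + 1)) := by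
    rw [← lintegral_ofReal_ne_top_iff_integrable
      (by exact (by fun_prop : Measurable fun g : E (m + 1) =>
        Real.exp (l * ⨆ i, ⟪g, ψ i⟫)).aestronglyMeasurable)
      (Filter.Eventually.of_forall fun g => (Real.exp_pos _).le)]
    exact LL_ne_top hm ψ l
  exact hI

end Pool.Agent.R972.CM
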