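import Pool.Agent.TH84.HC.Key

/-!
# A strict Sidak inequality
-/

set_option autoImplicit false

open MeasureTheory ProbabilityTheory
open scoped RealInnerProductSpace ENNReal

namespace Pool.Agent.R972.CM

open Pool.Agent.PZ871 (E gm)
open Pool.Agent.TH84.HC

/-- pulling out one factor -/
theorem pull {n : ℕ} (f : ℝ → ℝ≥0∞) (hf : LC f) (φ : E n) (hφ : ‖φ‖ = 1) (g : E n → ℝ≥0∞)
    (hg : LC g) :
    ∫⁻ t, f t * ∫⁻ w, g (w + (t - ⟪w, φ⟫) • φ) ∂(gm n) ∂g1 = ∫⁻ w, f ⟪w, φ⟫ * g w ∂(gm n) := by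
  rw [← resample n φ hφ (fun w => f ⟪w, φ⟫ * g w) ((hf.comp_inner φ).meas.mul hg.meas)]
  refine lintegral_congr fun t => ?_
  have hm : Measurable (fun w : E n => g (w + (t - ⟪w, φ⟫) • φ)) := hg.meas.comp (by fun_prop)
  rw [← lintegral_const_mul _ hm]
  refine lintegral_congr fun w => ?_
  have e : ⟪w + (t - ⟪w, φ⟫) • φ, φ⟫ = t := by
    rw [inner_add_left, inner_smul_left, real_inner_self_eq_norm_sq, hφ]
    simp
  simp only [e]

theorem marg {n : ℕ} (f : ℝ → ℝ≥0∞) (hf : Measurable f) (φ : E n) (hφ : ‖φ‖ = 1) :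
    ∫⁻ w, f ⟪w, φ⟫ ∂(gm n) = ∫⁻ t, f t ∂g1 := by
  rw [← resample n φ hφ (fun w => f ⟪w, φ⟫) (hf.comp (by fun_prop))]
  refine lintegral_congr fun t => ?_
  have e : ∀ w : E n, ⟪w + (t - ⟪w, φ⟫) • φ, φ⟫ = t := by
    intro w
    rw [inner_add_left, inner_smul_left, real_inner_self_eq_norm_sq, hφ]
    simp
  simp only [e]
  simp

/-- the Sidak inequality with a remaining factor -/
theorem sidak_tail {n : ℕ} {ι : Type*} (s : Finset ι) (f : ι → ℝ → ℝ≥0∞) (φ : ι → E n)
    (hf : ∀ i ∈ s, LC (f i)) (hφ : ∀ i ∈ s, ‖φ i‖ = 1) (g : E n → ℝ≥0∞) (hg : LC g) :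
    (∏ i ∈ s, ∫⁻ t, f i t ∂g1) * ∫⁻ w, g w ∂(gm n) ≤
      ∫⁻ w, (∏ i ∈ s, f i ⟪w, φ i⟫) * g w ∂(gm n) := by
  classical
  induction s using Finset.induction_on with
  | empty => simp
  | insert a s ha ih =>
    have hfa := hf a (Finset.mem_insert_self a s)
    have hφa := hφ a (Finset.mem_insert_self a s)
    have ih' := ih (fun i hi => hf i (Finset.mem_insert_of_mem hi))
      (fun i hi => hφ i (Finset.mem_insert_of_mem hi))
    set G : E n → ℝ≥0∞ := fun w => (∏ i ∈ s, f i ⟪w, φ i⟫) * g w with hG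
    have hGLC : LC G := (LC.prod s (fun i w => f i ⟪w, φ i⟫)
      (fun i hi => (hf i (Finset.mem_insert_of_mem hi)).comp_inner (φ i))).mul hg
    have hGs := hGLC.sec (φ a)
    have h1 := assoc hfa hGs
    rw [resample n (φ a) hφa G hGLC.meas] at h1
    rw [Finset.prod_insert ha]
    simp only [Finset.prod_insert ha]
    calc (∫⁻ t, f a t ∂g1) * (∏ i ∈ s, ∫⁻ t, f i t ∂g1) * ∫⁻ w, g w ∂(gm n)
        = (∫⁻ t, f a t ∂g1) * ((∏ i ∈ s, ∫⁻ t, f i t ∂g1) * ∫⁻ w, g w ∂(gm n)) := mul_assoc _ _ _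
      _ ≤ (∫⁻ t, f a t ∂g1) * ∫⁻ w, G w ∂(gm n) := mul_le_mul' le_rfl ih'
      _ ≤ ∫⁻ t, f a t * ∫⁻ w, G (w + (t - ⟪w, φ a⟫) • φ a) ∂(gm n) ∂g1 := h1
      _ = ∫⁻ w, f a ⟪w, φ a⟫ * G w ∂(gm n) := pull (f a) hfa (φ a) hφa G hGLC
      _ = _ := by
        refine lintegral_congr fun w => ?_
        simp only [hG]
        ring

/-- strict form of the association inequality -/
theorem assoc_strict {F G : ℝ → ℝ≥0∞} (hF : LC F) (hG : LC G) (A B : Set ℝ)
    (hA : MeasurableSet A) (hB : MeasurableSet B) (hA0 : 0 < g1 A) (hB0 : 0 < g1 B)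
    (α β : ℝ≥0∞) (hαβ : β < α) (FA : ∀ s ∈ A, F s = 1) (GA : ∀ s ∈ A, α ≤ G s)
    (FB : ∀ t ∈ B, F t = 0) (GB : ∀ t ∈ B, G t ≤ β) :
    (∫⁻ t, F t ∂g1) * (∫⁻ t, G t ∂g1) < ∫⁻ t, F t * G t ∂g1 := by
  have hp : ∀ s t : ℝ, F s * G t + F t * G s + A.indicator 1 s * (B.indicator 1 t * (α - β)) ≤
      F s * G s + F t * G t := by
    intro s t
    by_cases hs : s ∈ A
    · by_cases ht : t ∈ B
      · rw [FA s hs, FB t ht, Set.indicator_of_mem hs, Set.indicator_of_mem ht]
        simp only [Pi.one_apply, one_mul, zero_mul, add_zero]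
        have h1 := GA s hs
        have h2 := GB t ht
        calc G t + (α - β) ≤ β + (α - β) := by gcongr
          _ = α := add_tsub_cancel_of_le hαβ.le
          _ ≤ G s := h1
      · rw [Set.indicator_of_notMem ht, zero_mul, mul_zero, add_zero]
        rcases le_total |s| |t| with h | h
        · have a := hF.mono h
          have b := hG.mono h
          have := rearr a b
          calc F s * G t + F t * G s = F t * G s + F s * G t := add_comm _ _
            _ ≤ F t * G t + F s * G s := this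
            _ = _ := add_comm _ _
        · exact rearr (hF.mono h) (hG.mono h)
    · rw [Set.indicator_of_notMem hs, zero_mul, add_zero]
      rcases le_total |s| |t| with h | h
      · have a := hF.mono h
        have b := hG.mono h
        have := rearr a b
        calc F s * G t + F t * G s = F t * G s + F s * G t := add_comm _ _
          _ ≤ F t * G t + F s * G s := this
          _ = _ := add_comm _ _
      · exact rearr (hF.mono h) (hG.mono h)
  have h1 : ∫⁻ s, ∫⁻ t, (F s * G t + F t * G s + A.indicator 1 s * (B.indicator 1 t * (α - β)))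
        ∂g1 ∂g1 ≤
      ∫⁻ s, ∫⁻ t, (F s * G s + F t * G t) ∂g1 ∂g1 :=
    lintegral_mono fun s => lintegral_mono fun t => hp s t
  have e1 : ∫⁻ s, ∫⁻ t, (F s * G t + F t * G s + A.indicator 1 s * (B.indicator 1 t * (α - β)))
        ∂g1 ∂g1 =
      2 * ((∫⁻ t, F t ∂g1) * (∫⁻ t, G t ∂g1)) + g1 A * (g1 B * (α - β)) := by
    have : ∀ s, ∫⁻ t, (F s * G t + F t * G s + A.indicator 1 s * (B.indicator 1 t * (α - β))) ∂g1 =
        F s * (∫⁻ t, G t ∂g1) + (∫⁻ t, F t ∂g1) * G s + A.indicator 1 s * (g1 B * (α - β)) := by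
      intro s
      have hmA : Measurable (fun t => F s * G t + F t * G s) :=
        (hG.meas.const_mul _).add (hF.meas.mul_const _)
      rw [lintegral_add_left hmA,
        lintegral_add_left (hG.meas.const_mul _), lintegral_const_mul _ hG.meas,
        lintegral_mul_const _ hF.meas,
        lintegral_const_mul _ ((measurable_one.indicator hB).mul_const _),
        lintegral_mul_const _ (measurable_one.indicator hB), lintegral_indicator_one hB]
    simp only [this]
    have hmB : Measurable (fun s => F s * (∫⁻ t, G t ∂g1) + (∫⁻ t, F t ∂g1) * G s) :=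
      (hF.meas.mul_const _).add (hG.meas.const_mul _)
    rw [lintegral_add_left hmB,
      lintegral_add_left (hF.meas.mul_const _), lintegral_mul_const _ hF.meas,
      lintegral_const_mul _ hG.meas, lintegral_mul_const _ (measurable_one.indicator hA),
      lintegral_indicator_one hA]
    ring
  have e2 : ∫⁻ s, ∫⁻ t, (F s * G s + F t * G t) ∂g1 ∂g1 = 2 * ∫⁻ t, F t * G t ∂g1 := by
    have : ∀ s, ∫⁻ t, (F s * G s + F t * G t) ∂g1 = F s * G s + ∫⁻ t, F t * G t ∂g1 := by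
      intro s
      rw [lintegral_add_left measurable_const, lintegral_const]
      simp
    simp only [this]
    have hm : Measurable (fun t => F t * G t) := hF.meas.mul hG.meas
    rw [lintegral_add_left hm, lintegral_const]
    simp only [measure_univ, mul_one]
    ring
  rw [e1, e2] at h1
  have hFG : (∫⁻ t, F t ∂g1) * (∫⁻ t, G t ∂g1) ≤ 1 := by
    have a1 : ∫⁻ t, F t ∂g1 ≤ 1 := by
      calc ∫⁻ t, F t ∂g1 ≤ ∫⁻ _, 1 ∂g1 := lintegral_mono fun t => hF.le1 t
        _ = 1 := by simp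
    have a2 : ∫⁻ t, G t ∂g1 ≤ 1 := by
      calc ∫⁻ t, G t ∂g1 ≤ ∫⁻ _, 1 ∂g1 := lintegral_mono fun t => hG.le1 t
        _ = 1 := by simp
    calc _ ≤ (1:ℝ≥0∞) * 1 := mul_le_mul' a1 a2
      _ = 1 := one_mul 1
  have hδ : 0 < g1 A * (g1 B * (α - β)) := by
    have : 0 < α - β := tsub_pos_of_lt hαβ
    exact ENNReal.mul_pos hA0.ne' (ENNReal.mul_pos hB0.ne' this.ne').ne'
  have h2 : 2 * ((∫⁻ t, F t ∂g1) * (∫⁻ t, G t ∂g1)) < 2 * ∫⁻ t, F t * G t ∂g1 := by
    refine lt_of_lt_of_le ?_ h1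
    refine ENNReal.lt_add_right ?_ hδ.ne'
    exact ENNReal.mul_ne_top (by norm_num) (ne_top_of_le_ne_top ENNReal.one_ne_top hFG)
  exact (ENNReal.mul_lt_mul_iff_right (by norm_num) (by norm_num)).1 h2

/-- indicator of `(-r,r)` -/
noncomputable def ib (r t : ℝ) : ℝ≥0∞ := if |t| < r then 1 else 0

theorem ib_LC (r : ℝ) : LC (ib r) where
  meas := Measurable.ite (measurableSet_lt (by fun_prop) (by fun_prop)) measurable_const
    measurable_const
  le1 := fun x => by
    unfold ib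
    split_ifs
    · exact le_rfl
    · exact zero_le
  even := fun x => by
    unfold ib
    rw [abs_neg]
  lc := fun s h0 h1 x y => by
    unfold ib
    by_cases hx : |x| < r
    · by_cases hy : |y| < r
      · have : |s • x + (1 - s) • y| < r := by
          simp only [smul_eq_mul]
          have h1' : 0 < 1 - s := by linarith
          calc |s * x + (1 - s) * y| ≤ |s * x| + |(1 - s) * y| := abs_add_le _ _
            _ = s * |x| + (1 - s) * |y| := by
              rw [abs_mul, abs_mul, abs_of_pos h0, abs_of_pos h1']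
            _ < s * r + (1 - s) * r := by
              have := mul_lt_mul_of_pos_left hx h0
              have := mul_lt_mul_of_pos_left hy h1'
              linarith
            _ = r := by ring
        rw [if_pos hx, if_pos hy, if_pos this]
        simp
      · rw [if_neg hy, ENNReal.zero_rpow_of_pos (by linarith), mul_zero]
        exact zero_le
    · rw [if_neg hx, ENNReal.zero_rpow_of_pos h0, zero_mul]
      exact zero_le

theorem g1_pos {s : Set ℝ} (h : volume s ≠ 0) : 0 < g1 s := by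
  rw [pos_iff_ne_zero]
  intro h2
  exact h (gaussianReal_absolutelyContinuous' 0 one_ne_zero h2)

theorem ib_int_pos {r : ℝ} (hr : 0 < r) : 0 < ∫⁻ t, ib r t ∂g1 := by
  have : ib r = (Set.Ioo (-r) r).indicator 1 := by
    funext t
    unfold ib
    by_cases h : |t| < r
    · rw [if_pos h, Set.indicator_of_mem (by exact abs_lt.1 h)]
      rfl
    · rw [if_neg h, Set.indicator_of_notMem (by intro h'; exact h (abs_lt.2 h'))]
  rw [this, lintegral_indicator_one measurableSet_Ioo]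
  refine g1_pos ?_
  rw [Real.volume_Ioo]
  simp only [ne_eq, ENNReal.ofReal_eq_zero, not_le]
  linarith

/-- the strict inequality for two strips -/
theorem pair_strict {n : ℕ} (φ ψ : E n) (hφ : ‖φ‖ = 1) (hψ : ‖ψ‖ = 1) (hρ : ⟪φ, ψ⟫ ≠ 0)
    (r q : ℝ) (hr : 0 < r) (hq : 0 < q) :
    (∫⁻ t, ib r t ∂g1) * (∫⁻ t, ib q t ∂g1) <
      ∫⁻ w, ib r ⟪w, φ⟫ * ib q ⟪w, ψ⟫ ∂(gm n) := by
  set g : E n → ℝ≥0∞ := fun w => ib q ⟪w, ψ⟫ with hg
  have hgLC : LC g := (ib_LC q).comp_inner ψ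
  have hGLC := hgLC.sec φ
  set G : ℝ → ℝ≥0∞ := fun t : ℝ => ∫⁻ w, g (w + (t - ⟪w, φ⟫) • φ) ∂(gm n) with hG
  rw [← pull (ib r) (ib_LC r) φ hφ g hgLC]
  have hGint : ∫⁻ t, G t ∂g1 = ∫⁻ t, ib q t ∂g1 := by
    rw [hG, resample n φ hφ g hgLC.meas, hg, marg (ib q) (ib_LC q).meas ψ hψ]
  rw [← hGint]
  -- a nonzero point where `G` is positive
  obtain ⟨t0, ht0, hGt0⟩ : ∃ t0 : ℝ, t0 ≠ 0 ∧ 0 < G t0 := by
    by_contra hcon
    push Not at hcon
    have h0 : ∫⁻ t, G t ∂g1 = 0 := by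
      rw [lintegral_eq_zero_iff hGLC.meas]
      have : ∀ᵐ t ∂g1, t ≠ 0 := by
        rw [ae_iff]
        simpa using g1_null 0
      filter_upwards [this] with t ht
      exact le_antisymm (hcon t ht) zero_le
    rw [hGint] at h0
    exact absurd h0 (ib_int_pos hq).ne'
  -- `G` tends to zero
  have hlim : Filter.Tendsto G Filter.atTop (nhds 0) := by
    have hz : (0 : ℝ≥0∞) = ∫⁻ _ : E n, 0 ∂(gm n) := by simp
    rw [hz]
    refine tendsto_lintegral_filter_of_dominated_convergence (fun _ => 1) ?_ ?_ ?_ ?_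
    · exact Filter.Eventually.of_forall fun t => hgLC.meas.comp (by fun_prop)
    · exact Filter.Eventually.of_forall fun t => Filter.Eventually.of_forall fun w => hgLC.le1 _
    · simp
    · refine Filter.Eventually.of_forall fun w => ?_
      refine tendsto_const_nhds.congr' ?_
      have hev : ∀ᶠ t : ℝ in Filter.atTop, q ≤ |⟪w + (t - ⟪w, φ⟫) • φ, ψ⟫| := by
        have e : ∀ t : ℝ, ⟪w + (t - ⟪w, φ⟫) • φ, ψ⟫ =
            t * ⟪φ, ψ⟫ + (⟪w, ψ⟫ - ⟪w, φ⟫ * ⟪φ, ψ⟫) := by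
          intro t
          rw [inner_add_left, inner_smul_left]
          simp only [conj_trivial]
          ring
        simp only [e]
        set ρ : ℝ := ⟪φ, ψ⟫ with hρd
        set K : ℝ := ⟪w, ψ⟫ - ⟪w, φ⟫ * ρ with hK
        have hρ' : 0 < |ρ| := abs_pos.2 hρ
        filter_upwards [Filter.eventually_ge_atTop ((q + |K|) / |ρ|),
          Filter.eventually_ge_atTop 0] with t ht ht'
        rw [div_le_iff₀ hρ'] at ht
        have h1 : |t * ρ| ≤ |t * ρ + K| + |K| := by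
          have := abs_sub (t * ρ + K) K
          simpa using this
        rw [abs_mul, abs_of_nonneg ht'] at h1
        linarith
      filter_upwards [hev] with t ht
      simp only [hg]
      unfold ib
      rw [if_neg (by linarith)]
  obtain ⟨M, hM1, hM2⟩ : ∃ M : ℝ, G M < G t0 ∧ r ≤ M := by
    have h1 := hlim.eventually (gt_mem_nhds hGt0)
    obtain ⟨M, hM⟩ := (h1.and (Filter.eventually_ge_atTop r)).exists
    exact ⟨M, hM.1, hM.2⟩
  have hM0 : 0 < M := lt_of_lt_of_le hr hM2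
  set ε : ℝ := min |t0| (r / 2) with hε
  have hε0 : 0 < ε := lt_min (abs_pos.2 ht0) (by linarith)
  refine assoc_strict (ib_LC r) hGLC (Set.Icc (-ε) ε) (Set.Ici M) measurableSet_Icc
    measurableSet_Ici ?_ ?_ (G t0) (G M) hM1 ?_ ?_ ?_ ?_
  · refine g1_pos ?_
    rw [Real.volume_Icc]
    simp only [ne_eq, ENNReal.ofReal_eq_zero, not_le]
    linarith
  · refine g1_pos ?_
    rw [Real.volume_Ici]
    simp
  · intro s hs
    unfold ib
    rw [if_pos]
    have : |s| ≤ ε := abs_le.2 hs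
    have h2 : ε ≤ r / 2 := min_le_right _ _
    linarith
  · intro s hs
    have : |s| ≤ ε := abs_le.2 hs
    have h2 : ε ≤ |t0| := min_le_left _ _
    exact hGLC.mono (this.trans h2)
  · intro t ht
    unfold ib
    rw [if_neg]
    have ht' : M ≤ t := ht
    rw [abs_of_pos (by linarith)]
    linarith
  · intro t ht
    have ht' : M ≤ t := ht
    refine hGLC.mono ?_
    rw [abs_of_pos hM0, abs_of_pos (by linarith)]
    exact ht'

/-- the strict Sidak inequality for strips -/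
theorem sidak_strict {n : ℕ} {ι : Type} [Fintype ι] [DecidableEq ι] (φ : ι → E n)
    (hφ : ∀ i, ‖φ i‖ = 1) (r : ι → ℝ) (hr : ∀ i, 0 < r i) (i j : ι) (hij : i ≠ j)
    (hρ : ⟪φ i, φ j⟫ ≠ 0) :
    ∏ k, ∫⁻ t, ib (r k) t ∂g1 < ∫⁻ w, ∏ k, ib (r k) ⟪w, φ k⟫ ∂(gm n) := by
  set g : E n → ℝ≥0∞ := fun w => ib (r i) ⟪w, φ i⟫ * ib (r j) ⟪w, φ j⟫ with hg
  have hgLC : LC g := ((ib_LC _).comp_inner (φ i)).mul ((ib_LC _).comp_inner (φ j))
  set s : Finset ι := (Finset.univ.erase i).erase j with hs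
  have h1 := sidak_tail s (fun k => ib (r k)) φ (fun k _ => ib_LC (r k)) (fun k _ => hφ k) g hgLC
  have hsplit : ∀ F : ι → ℝ≥0∞, ∏ k, F k = (∏ k ∈ s, F k) * (F i * F j) := by
    intro F
    rw [← Finset.mul_prod_erase Finset.univ F (Finset.mem_univ i),
      ← Finset.mul_prod_erase (Finset.univ.erase i) F (a := j)
        (Finset.mem_erase.2 ⟨hij.symm, Finset.mem_univ j⟩)]
    rw [hs]
    ring
  rw [hsplit]
  have h2 : ∫⁻ w, ∏ k, ib (r k) ⟪w, φ k⟫ ∂(gm n) =
      ∫⁻ w, (∏ k ∈ s, ib (r k) ⟪w, φ k⟫) * g w ∂(gm n) := by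
    refine lintegral_congr fun w => ?_
    rw [hsplit]
  rw [h2]
  refine lt_of_lt_of_le ?_ h1
  have h3 := pair_strict (φ i) (φ j) (hφ i) (hφ j) hρ (r i) (r j) (hr i) (hr j)
  have hp0 : (∏ k ∈ s, ∫⁻ t, ib (r k) t ∂g1) ≠ 0 := by
    rw [Finset.prod_ne_zero_iff]
    intro k _
    exact (ib_int_pos (hr k)).ne'
  have hpt : (∏ k ∈ s, ∫⁻ t, ib (r k) t ∂g1) ≠ ⊤ := by
    refine ne_top_of_le_ne_top ENNReal.one_ne_top (Finset.prod_le_one' fun k _ => ?_)
    calc ∫⁻ t, ib (r k) t ∂g1 ≤ ∫⁻ _, 1 ∂g1 := lintegral_mono fun t => (ib_LC (r k)).le1 t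
      _ = 1 := by simp
  exact (ENNReal.mul_lt_mul_iff_right hp0 hpt).2 h3

end Pool.Agent.R972.CM
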