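import Pool.Agent.R972.CM.Base
import Pool.Agent.R972.CM.Strict

/-!
# Equality in the Gaussian orthant comparison
-/

set_option autoImplicit false

open MeasureTheory ProbabilityTheory
open scoped RealInnerProductSpace ENNReal

namespace Pool.Agent.R972.CM

open Pool.Agent.PZ871 (E gm)
open Pool.Agent.TH84.HC

theorem hk0_mul (c p q : ℝ) : hk c 0 ((p + q) / Real.sqrt 2) * hk c 0 ((p - q) / Real.sqrt 2) =
    ib (Real.sqrt 2 * c - p) q := by
  have h2 := sqrt2_pos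
  unfold ib
  rw [hk_zero, hk_zero]
  by_cases h : |q| < Real.sqrt 2 * c - p
  · rw [if_pos h]
    rw [abs_lt] at h
    have a1 : (p + q) / Real.sqrt 2 < c := by
      rw [div_lt_iff₀ h2]
      linarith [h.1, h.2]
    have a2 : (p - q) / Real.sqrt 2 < c := by
      rw [div_lt_iff₀ h2]
      linarith [h.1, h.2]
    rw [if_pos a1, if_pos a2, one_mul]
  · rw [if_neg h]
    rw [abs_lt] at h
    by_cases a1 : (p + q) / Real.sqrt 2 < c
    · have a2 : ¬ (p - q) / Real.sqrt 2 < c := by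
        intro a2
        apply h
        rw [div_lt_iff₀ h2] at a1 a2
        constructor <;> linarith
      rw [if_neg a2, mul_zero]
    · rw [if_neg a1, zero_mul]

theorem hk1_eq (c a : ℝ) : hk c 1 a = ∫⁻ b, ib (Real.sqrt 2 * c - a) b ∂g1 := by
  rw [show hk c 1 a = hk c (0 + 1) a from rfl, hk_succ]
  exact lintegral_congr fun b => hk0_mul c a b

theorem ib_zero {r : ℝ} (hr : r ≤ 0) (t : ℝ) : ib r t = 0 := by
  unfold ib
  rw [if_neg]
  have := abs_nonneg t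
  linarith

/-- the square of the orthant probability -/
theorem JJ0_sq {n : ℕ} {ι : Type} [Fintype ι] (φ : ι → E n) (c : ℝ) :
    (JJ φ c 0 0) ^ 2 =
      ∫⁻ u, ∫⁻ w, ∏ i, ib (Real.sqrt 2 * c - ⟪u, φ i⟫) ⟪w, φ i⟫ ∂(gm n) ∂(gm n) := by
  set F : E n → ℝ≥0∞ := fun y => ∏ i, hk c 0 ⟪y, φ i⟫ with hF
  have hFm : Measurable F := prod_meas φ c 0
  set a : ℝ := 1 / Real.sqrt 2 with ha
  have haa : a ^ 2 + a ^ 2 = 1 := by
    rw [ha, div_pow, Real.sq_sqrt (by norm_num)]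
    norm_num
  have hrot := Pool.Agent.PZ871.M_grot.grot n a a haa
  have hΨ : Measurable (fun p : E n × E n => F p.1 * F p.2) :=
    (hFm.comp measurable_fst).mul (hFm.comp measurable_snd)
  have hJ : JJ φ c 0 0 = ∫⁻ y, F y ∂(gm n) := by
    unfold JJ
    refine lintegral_congr fun y => ?_
    rw [inner_zero_left, Real.exp_zero, ENNReal.ofReal_one, mul_one]
  have h2 : (JJ φ c 0 0) ^ 2 = ∫⁻ p, F p.1 * F p.2 ∂((gm n).prod (gm n)) := by
    rw [lintegral_prod_mul hFm.aemeasurable hFm.aemeasurable, sq, hJ]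
  rw [h2, ← hrot.lintegral_comp hΨ]
  refine (lintegral_prod _ (hΨ.comp hrot.measurable).aemeasurable).trans ?_
  refine lintegral_congr fun u => lintegral_congr fun w => ?_
  simp only [hF, Function.comp_apply]
  rw [← Finset.prod_mul_distrib]
  refine Finset.prod_congr rfl fun i _ => ?_
  have q1 : ⟪a • u + a • w, φ i⟫ = (⟪u, φ i⟫ + ⟪w, φ i⟫) / Real.sqrt 2 := by
    rw [inner_add_left, inner_smul_left, inner_smul_left, ha]
    simp only [conj_trivial]
    ring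
  have q2 : ⟪a • u - a • w, φ i⟫ = (⟪u, φ i⟫ - ⟪w, φ i⟫) / Real.sqrt 2 := by
    rw [inner_sub_left, inner_smul_left, inner_smul_left, ha]
    simp only [conj_trivial]
    ring
  rw [q1, q2, hk0_mul]

theorem strict_step {n : ℕ} {ι : Type} [Fintype ι] [DecidableEq ι] (φ : ι → E n)
    (hφ : ∀ i, ‖φ i‖ = 1) (c : ℝ) (hpos : JJ φ c 1 0 ≠ 0) (i j : ι) (hij : i ≠ j)
    (hρ : ⟪φ i, φ j⟫ ≠ 0) : JJ φ c 1 0 < (JJ φ c 0 0) ^ 2 := by
  have hJ : JJ φ c 1 0 =
      ∫⁻ u, ∏ i, ∫⁻ b, ib (Real.sqrt 2 * c - ⟪u, φ i⟫) b ∂g1 ∂(gm n) := by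
    unfold JJ
    refine lintegral_congr fun y => ?_
    rw [inner_zero_left, Real.exp_zero, ENNReal.ofReal_one, mul_one]
    exact Finset.prod_congr rfl fun i _ => hk1_eq c _
  rw [JJ0_sq, hJ]
  rw [hJ] at hpos
  have hmeas : Measurable (fun u : E n =>
      ∫⁻ w, ∏ i, ib (Real.sqrt 2 * c - ⟪u, φ i⟫) ⟪w, φ i⟫ ∂(gm n)) := by
    have : Measurable (fun p : E n × E n =>
        ∏ i, ib (Real.sqrt 2 * c - ⟪p.1, φ i⟫) ⟪p.2, φ i⟫) := by
      refine Finset.measurable_prod _ fun i _ => ?_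
      unfold ib
      exact Measurable.ite (measurableSet_lt (by fun_prop) (by fun_prop)) measurable_const
        measurable_const
    exact this.lintegral_prod_right
  refine lintegral_strict_mono_of_ae_le_of_ae_lt_on hmeas.aemeasurable ?_ ?_
    (s := {u : E n | ∀ i, 0 < Real.sqrt 2 * c - ⟪u, φ i⟫}) ?_ ?_
  · rw [← hJ]
    exact ne_top_of_le_ne_top ENNReal.one_ne_top (JJ_le1 φ c 1)
  · refine Filter.Eventually.of_forall fun u => ?_
    exact sidak Finset.univ (fun i => ib (Real.sqrt 2 * c - ⟪u, φ i⟫)) φ (fun i _ => ib_LC _)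
      (fun i _ => hφ i)
  · intro hnull
    apply hpos
    have hae : ∀ᵐ u ∂(gm n), (∏ i, ∫⁻ b, ib (Real.sqrt 2 * c - ⟪u, φ i⟫) b ∂g1) = 0 := by
      have h1 : ∀ᵐ u ∂(gm n), u ∉ {u : E n | ∀ i, 0 < Real.sqrt 2 * c - ⟪u, φ i⟫} :=
        measure_eq_zero_iff_ae_notMem.1 hnull
      filter_upwards [h1] with u hu
      simp only [not_forall, not_lt] at hu
      obtain ⟨k, hk⟩ := hu
      refine Finset.prod_eq_zero (Finset.mem_univ k) ?_
      simp [ib_zero hk]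
    rw [lintegral_congr_ae hae]
    simp
  · refine Filter.Eventually.of_forall fun u hu => ?_
    exact sidak_strict φ hφ _ hu i j hij hρ

theorem JJ0_eq {n : ℕ} {ι : Type} [Fintype ι] (φ : ι → E n) (c : ℝ) :
    JJ φ c 0 0 = (gm n) {y | ∀ i, ⟪y, φ i⟫ < c} := by
  have hC : MeasurableSet {y : E n | ∀ i, ⟪y, φ i⟫ < c} := by
    have : {y : E n | ∀ i, ⟪y, φ i⟫ < c} = ⋂ i, {y : E n | ⟪y, φ i⟫ < c} := by
      ext y
      simp
    rw [this]
    exact MeasurableSet.iInter fun i => measurableSet_lt (by fun_prop) (by fun_prop)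
  rw [← lintegral_indicator_one hC]
  unfold JJ
  refine lintegral_congr fun y => ?_
  rw [inner_zero_left, Real.exp_zero, ENNReal.ofReal_one, mul_one]
  by_cases h : ∀ i, ⟪y, φ i⟫ < c
  · rw [Set.indicator_of_mem (by exact h), Pi.one_apply]
    refine Finset.prod_eq_one fun i _ => ?_
    rw [hk_zero, if_pos (h i)]
  · rw [Set.indicator_of_notMem (by exact h)]
    push Not at h
    obtain ⟨i, hi⟩ := h
    refine Finset.prod_eq_zero (Finset.mem_univ i) ?_
    rw [hk_zero, if_neg (by linarith)]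

/-- the strict orthant inequality -/
theorem orthant_strict {n : ℕ} {ι : Type} [Fintype ι] [DecidableEq ι] (φ : ι → E n)
    (hφ : ∀ i, ‖φ i‖ = 1) (x : E n) (hx : ∀ i, ⟪x, φ i⟫ = 1)
    (hn : ‖x‖ ^ 2 ≤ Fintype.card ι) (i j : ι) (hij : i ≠ j) (hρ : ⟪φ i, φ j⟫ ≠ 0) (c : ℝ) :
    Ph c ^ Fintype.card ι < (gm n).real {y | ∀ i, ⟪y, φ i⟫ < c} := by
  have h1 := low1 c φ hφ x hx hn
  have hP : 0 < Ph c ^ Fintype.card ι := pow_pos (Ph_pos c) _
  have hpos : JJ φ c 1 0 ≠ 0 := by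
    intro h0
    rw [h0, ENNReal.toReal_zero] at h1
    have : 0 < (Ph c ^ Fintype.card ι) ^ 2 := by positivity
    linarith
  have h2 := strict_step φ hφ c hpos i j hij hρ
  have hfin0 : JJ φ c 0 0 ≠ ⊤ := ne_top_of_le_ne_top ENNReal.one_ne_top (JJ_le1 φ c 0)
  have h3 : (JJ φ c 1 0).toReal < ((JJ φ c 0 0).toReal) ^ 2 := by
    rw [← ENNReal.toReal_pow]
    exact (ENNReal.toReal_lt_toReal (ne_top_of_le_ne_top ENNReal.one_ne_top (JJ_le1 φ c 1))
      (ENNReal.pow_ne_top hfin0)).2 h2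
  have h4 : (Ph c ^ Fintype.card ι) ^ 2 < ((JJ φ c 0 0).toReal) ^ 2 := lt_of_le_of_lt h1 h3
  have h5 := lt_of_pow_lt_pow_left₀ 2 ENNReal.toReal_nonneg h4
  rwa [JJ0_eq] at h5

end Pool.Agent.R972.CM
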